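import Pool.Agent.R64.OhbaCore2

/-!
# MP_abf9c7_co: generalized Ohba numbers of `K_{a,b}`

For every `s` and every fixed `a ≥ s + 2`, `τ_s(a, b) = Θ(b ^ (1 / (2 s + 2)))` as `b → ∞`.
-/

set_option autoImplicit false

namespace Pool.Agent.Results.MP_abf9c7_co.Theta

open Finset Filter Asymptotics

/-- The join `G ∨ H`: every vertex of `G` is adjacent to every vertex of `H`. -/
def join {V W : Type} (G : SimpleGraph V) (H : SimpleGraph W) : SimpleGraph (V ⊕ W) where
  Adj x y := match x, y with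
    | Sum.inl u, Sum.inl v => G.Adj u v
    | Sum.inr u, Sum.inr v => H.Adj u v
    | Sum.inl _, Sum.inr _ => True
    | Sum.inr _, Sum.inl _ => True
  symm := ⟨fun x y h => by
    rcases x with u | u <;> rcases y with v | v
    · exact SimpleGraph.Adj.symm (G := G) h
    · trivial
    · trivial
    · exact SimpleGraph.Adj.symm (G := H) h⟩
  loopless := ⟨fun x h => by
    rcases x with u | u
    · exact G.irrefl h
    · exact H.irrefl h⟩

/-- `K_t ∨ K_{a,b}`. -/
def KK (t a b : ℕ) : SimpleGraph (Fin t ⊕ (Fin a ⊕ Fin b)) :=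
  join (⊤ : SimpleGraph (Fin t)) (completeBipartiteGraph (Fin a) (Fin b))

/-- `G` is `k`-choosable. -/
def Choosable {V : Type} (G : SimpleGraph V) (k : ℕ) : Prop :=
  ∀ L : V → Finset ℕ, (∀ v, (L v).card = k) →
    ∃ c : V → ℕ, (∀ v, c v ∈ L v) ∧ ∀ u v, G.Adj u v → c u ≠ c v

/-- The list chromatic number. -/
noncomputable def choiceNumber {V : Type} (G : SimpleGraph V) : ℕ := sInf {k | Choosable G k}

/-- The generalized Ohba number `τ_s(a, b)`: the least `t` with
`χ_ℓ(K_t ∨ K_{a,b}) - χ(K_t ∨ K_{a,b}) ≤ s`. -/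
noncomputable def tau (s a b : ℕ) : ℕ :=
  sInf {t | ((choiceNumber (KK t a b) : ℕ) : ℕ∞) ≤ (KK t a b).chromaticNumber + s}

/-! ### The chromatic number -/

theorem adj_ll {t a b : ℕ} (i j : Fin t) :
    (KK t a b).Adj (Sum.inl i) (Sum.inl j) ↔ i ≠ j := Iff.rfl

theorem adj_lr {t a b : ℕ} (i : Fin t) (x : Fin a ⊕ Fin b) :
    (KK t a b).Adj (Sum.inl i) (Sum.inr x) := trivial

theorem adj_rl {t a b : ℕ} (i : Fin t) (x : Fin a ⊕ Fin b) :
    (KK t a b).Adj (Sum.inr x) (Sum.inl i) := trivial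

theorem adj_rr {t a b : ℕ} (x y : Fin a ⊕ Fin b) :
    (KK t a b).Adj (Sum.inr x) (Sum.inr y) ↔
      (completeBipartiteGraph (Fin a) (Fin b)).Adj x y := Iff.rfl

theorem chromatic (t a b : ℕ) (ha : 0 < a) (hb : 0 < b) :
    (KK t a b).chromaticNumber = ((t + 2 : ℕ) : ℕ∞) := by
  apply le_antisymm
  · apply SimpleGraph.Colorable.chromaticNumber_le
    refine ⟨SimpleGraph.Coloring.mk (fun x => match x with
      | Sum.inl i => (⟨i, by omega⟩ : Fin (t + 2))
      | Sum.inr (Sum.inl _) => ⟨t, by omega⟩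
      | Sum.inr (Sum.inr _) => ⟨t + 1, by omega⟩) ?_⟩
    intro x y hxy
    rcases x with i | x | x <;> rcases y with j | y | y
    · intro h
      exact hxy (Fin.ext (by simpa using h))
    · intro h
      have := Fin.mk.inj h
      have := i.isLt
      omega
    · intro h
      have := Fin.mk.inj h
      have := i.isLt
      omega
    · intro h
      have := Fin.mk.inj h
      have := j.isLt
      omega
    · rw [adj_rr] at hxy; simp at hxy
    · intro h
      have := Fin.mk.inj h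
      omega
    · intro h
      have := Fin.mk.inj h
      have := j.isLt
      omega
    · intro h
      have := Fin.mk.inj h
      omega
    · rw [adj_rr] at hxy; simp at hxy
  · have hinj : Function.Injective (fun i : Fin t => (Sum.inl i : Fin t ⊕ (Fin a ⊕ Fin b))) :=
      Sum.inl_injective
    let S : Finset (Fin t ⊕ (Fin a ⊕ Fin b)) :=
      insert (Sum.inr (Sum.inl ⟨0, ha⟩)) (insert (Sum.inr (Sum.inr ⟨0, hb⟩))
        (univ.image fun i : Fin t => Sum.inl i))
    have hS : (KK t a b).IsClique (↑S : Set _) := by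
      intro x hx y hy hxy
      have hx' : x ∈ S := hx
      have hy' : y ∈ S := hy
      rcases mem_insert.mp hx' with rfl | hx2
      · rcases mem_insert.mp hy' with rfl | hy2
        · exact absurd rfl hxy
        · rcases mem_insert.mp hy2 with rfl | hy3
          · rw [adj_rr]; simp
          · obtain ⟨j, _, rfl⟩ := mem_image.mp hy3
            exact adj_rl _ _
      · rcases mem_insert.mp hx2 with rfl | hx3
        · rcases mem_insert.mp hy' with rfl | hy2
          · rw [adj_rr]; simp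
          · rcases mem_insert.mp hy2 with rfl | hy3
            · exact absurd rfl hxy
            · obtain ⟨j, _, rfl⟩ := mem_image.mp hy3
              exact adj_rl _ _
        · obtain ⟨i, _, rfl⟩ := mem_image.mp hx3
          rcases mem_insert.mp hy' with rfl | hy2
          · exact adj_lr _ _
          · rcases mem_insert.mp hy2 with rfl | hy3
            · exact adj_lr _ _
            · obtain ⟨j, _, rfl⟩ := mem_image.mp hy3
              rw [adj_ll]
              rintro rfl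
              exact hxy rfl
    have hc : S.card = t + 2 := by
      rw [card_insert_of_notMem, card_insert_of_notMem, card_image_of_injective _ hinj,
        card_univ, Fintype.card_fin]
      · simp
      · simp
    rw [← hc]
    exact hS.card_le_chromaticNumber

/-! ### Choosability -/

theorem choosable_mono {V : Type} (G : SimpleGraph V) {k l : ℕ} (hkl : k ≤ l)
    (h : Choosable G k) : Choosable G l := by
  intro L hL
  have h1 : ∀ v, ∃ M ⊆ L v, M.card = k := fun v =>
    exists_subset_card_eq (by rw [hL v]; exact hkl)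
  choose M hM1 hM2 using h1
  obtain ⟨c, hc1, hc2⟩ := h M hM2
  exact ⟨c, fun v => hM1 v (hc1 v), hc2⟩

theorem choosable_card {V : Type} [Fintype V] (G : SimpleGraph V) :
    Choosable G (Fintype.card V) := by
  classical
  intro L hL
  obtain ⟨c, hc1, hc2⟩ := R64.OhbaCore.hallType L (fun v => by rw [hL v])
  exact ⟨c, hc2, fun u v huv h => G.ne_of_adj huv (hc1 h)⟩

theorem choiceNumber_le_iff {V : Type} [Fintype V] (G : SimpleGraph V) (k : ℕ) :
    choiceNumber G ≤ k ↔ Choosable G k := by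
  constructor
  · intro h
    have h1 : Choosable G (choiceNumber G) := Nat.sInf_mem (s := {k | Choosable G k})
      ⟨_, choosable_card G⟩
    exact choosable_mono G h h1
  · intro h
    exact Nat.sInf_le h

/-- The condition defining `τ_s(a,b)` in terms of choosability. -/
theorem cond_iff (s t a b : ℕ) (ha : 0 < a) (hb : 0 < b) :
    ((choiceNumber (KK t a b) : ℕ) : ℕ∞) ≤ (KK t a b).chromaticNumber + s ↔
      Choosable (KK t a b) (t + s + 2) := by
  rw [chromatic t a b ha hb, ← choiceNumber_le_iff]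
  rw [show ((t + 2 : ℕ) : ℕ∞) + (s : ℕ∞) = ((t + s + 2 : ℕ) : ℕ∞) by push_cast; ring]
  exact Nat.cast_le

/-! ### Upper bound -/

theorem upper_choosable (s a N t b : ℕ) (hN : 1 ≤ N)
    (ht : (1 + (2 * s + 2 + a) + a * (2 * s + 2 + a) +
      (a + 1) * ((2 * s + 2 + a + a) * (s + 1 + (2 * s + 2 + a) + a))) * N ≤ t)
    (hb : b < N ^ (2 * s + 2)) : Choosable (KK t a b) (t + s + 2) := by
  intro L hL
  obtain ⟨cK, cA, h1, h2, h3, h4, h5⟩ := R64.OhbaCore.core s a N t b hN ht hb
    (fun i => L (Sum.inl i)) (fun v => L (Sum.inr (Sum.inl v)))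
    (fun w => L (Sum.inr (Sum.inr w))) (fun i => hL _) (fun v => hL _) (fun w => hL _)
  choose x hx1 hx2 hx3 using h5
  refine ⟨Sum.elim cK (Sum.elim cA x), ?_, ?_⟩
  · intro v
    rcases v with i | v | w
    · exact h2 i
    · exact h3 v
    · exact hx1 w
  · intro u v huv
    rcases u with i | u | u <;> rcases v with j | v | v
    · exact fun h => (adj_ll i j).mp huv (h1 h)
    · exact h4 i v
    · exact hx2 v i
    · exact (h4 j u).symm
    · rw [adj_rr] at huv; simp at huv
    · exact hx3 v u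
    · exact (hx2 u j).symm
    · exact (hx3 u v).symm
    · rw [adj_rr] at huv; simp at huv

/-! ### Lower bound -/

/-- The list of a vertex of the large part, coded by `(g, h)`. -/
def bl (s k : ℕ) (g h : Fin (s + 1) → Fin k) : Finset ℕ :=
  (range k \ univ.image fun j => (g j : ℕ)) ∪
    univ.image fun j : Fin (s + 1) => ((j : ℕ) + 1) * k + (h j : ℕ)

theorem bl_card (s k : ℕ) (g h : Fin (s + 1) → Fin k) (hg : Function.Injective g) :
    (bl s k g h).card = k := by
  have h1 : (univ.image fun j => (g j : ℕ)).card = s + 1 := by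
    rw [card_image_of_injective _ (fun x y hxy => hg (Fin.ext hxy)), card_univ, Fintype.card_fin]
  have h2 : (univ.image fun j => (g j : ℕ)) ⊆ range k := by
    intro x hx
    obtain ⟨j, _, rfl⟩ := mem_image.mp hx
    exact mem_range.mpr (g j).isLt
  have h3 : (univ.image fun j : Fin (s + 1) => ((j : ℕ) + 1) * k + (h j : ℕ)).card = s + 1 := by
    rw [card_image_of_injective, card_univ, Fintype.card_fin]
    intro x y hxy
    have hk : 0 < k := lt_of_le_of_lt (Nat.zero_le _) (h x).isLt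
    have e1 : (((x : ℕ) + 1) * k + (h x : ℕ)) / k = (x : ℕ) + 1 := by
      rw [mul_comm, Nat.mul_add_div hk, Nat.div_eq_of_lt (h x).isLt, add_zero]
    have e2 : (((y : ℕ) + 1) * k + (h y : ℕ)) / k = (y : ℕ) + 1 := by
      rw [mul_comm, Nat.mul_add_div hk, Nat.div_eq_of_lt (h y).isLt, add_zero]
    have hxy' : ((x : ℕ) + 1) * k + (h x : ℕ) = ((y : ℕ) + 1) * k + (h y : ℕ) := hxy
    rw [hxy', e2] at e1
    exact Fin.ext (by omega)
  have h4 : Disjoint (range k \ univ.image fun j => (g j : ℕ))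
      (univ.image fun j : Fin (s + 1) => ((j : ℕ) + 1) * k + (h j : ℕ)) := by
    rw [disjoint_left]
    intro x hx hx2
    have hx3 := mem_range.mp (mem_sdiff.mp hx).1
    obtain ⟨j, _, rfl⟩ := mem_image.mp hx2
    have : k ≤ ((j : ℕ) + 1) * k := Nat.le_mul_of_pos_left _ (by omega)
    omega
  have h5 := card_le_card h2
  rw [h1, card_range] at h5
  rw [bl, card_union_of_disjoint h4, card_sdiff_of_subset h2, h1, h3, card_range]
  omega

theorem lower_notChoosable (s a t b : ℕ) (ha : s + 2 ≤ a)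
    (hb : (t + s + 2) ^ (2 * s + 2) ≤ b) : ¬ Choosable (KK t a b) (t + s + 2) := by
  classical
  obtain ⟨k, hk⟩ : ∃ k, k = t + s + 2 := ⟨_, rfl⟩
  rw [← hk] at hb ⊢
  intro hch
  -- all pairs `(g, h)` are coded
  have hcard : Fintype.card ((Fin (s + 1) → Fin k) × (Fin (s + 1) → Fin k)) ≤
      Fintype.card (Fin b) := by
    rw [Fintype.card_prod, Fintype.card_fun, Fintype.card_fin, Fintype.card_fin, Fintype.card_fin]
    refine le_trans (le_of_eq ?_) hb
    rw [← pow_add]
    congr 1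
    ring
  obtain ⟨e⟩ := Function.Embedding.nonempty_of_card_le hcard
  have : Nonempty ((Fin (s + 1) → Fin k) × (Fin (s + 1) → Fin k)) :=
    ⟨(fun _ => ⟨0, by omega⟩, fun _ => ⟨0, by omega⟩)⟩
  obtain ⟨f, hf⟩ : ∃ f : Fin b → (Fin (s + 1) → Fin k) × (Fin (s + 1) → Fin k),
      ∀ p, f (e p) = p := ⟨Function.invFun e, fun p => Function.leftInverse_invFun e.injective p⟩
  obtain ⟨c, hc1, hc2⟩ := hch (Sum.elim (fun _ => range k)
    (Sum.elim (fun v => Ico ((v : ℕ) * k) ((v : ℕ) * k + k))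
      (fun w => if Function.Injective (f w).1 then bl s k (f w).1 (f w).2 else range k))) (by
    intro v
    rcases v with i | v | w
    · simp
    · simp
    · show (if Function.Injective (f w).1 then bl s k (f w).1 (f w).2 else range k).card = k
      split_ifs with h
      · exact bl_card s k _ _ h
      · exact card_range k)
  have hcK : ∀ i, c (Sum.inl i) ∈ range k := fun i => hc1 (Sum.inl i)
  have hcA : ∀ v : Fin a, c (Sum.inr (Sum.inl v)) ∈ Ico ((v : ℕ) * k) ((v : ℕ) * k + k) :=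
    fun v => hc1 (Sum.inr (Sum.inl v))
  obtain ⟨D, hD⟩ : ∃ D : Finset ℕ, D = insert (c (Sum.inr (Sum.inl ⟨0, by omega⟩)))
    (univ.image fun i : Fin t => c (Sum.inl i)) := ⟨_, rfl⟩
  have hDc : D.card = t + 1 := by
    rw [hD, card_insert_of_notMem, card_image_of_injective, card_univ, Fintype.card_fin]
    · intro i j hij
      by_contra hne
      exact hc2 _ _ ((adj_ll i j).mpr hne) hij
    · intro h
      obtain ⟨i, _, hi⟩ := mem_image.mp h
      exact hc2 _ _ (adj_lr i _) hi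
  have hDs : D ⊆ range k := by
    rw [hD]
    intro x hx
    rcases mem_insert.mp hx with rfl | hx
    · have := hcA ⟨0, by omega⟩
      rw [mem_Ico] at this
      rw [mem_range]
      have h0 : ((⟨0, by omega⟩ : Fin a) : ℕ) = 0 := rfl
      rw [h0] at this
      omega
    · obtain ⟨i, _, rfl⟩ := mem_image.mp hx
      exact hcK i
  obtain ⟨T, hT⟩ : ∃ T, T = range k \ D := ⟨_, rfl⟩
  have hTc : T.card = s + 1 := by
    rw [hT, card_sdiff_of_subset hDs, card_range, hDc]
    omega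
  obtain ⟨g, hg⟩ : ∃ g : Fin (s + 1) → Fin k, ∀ j, (g j : ℕ) = T.orderEmbOfFin hTc j := by
    refine ⟨fun j => ⟨T.orderEmbOfFin hTc j, ?_⟩, fun j => rfl⟩
    have h1 := T.orderEmbOfFin_mem hTc j
    have h2 : T ⊆ range k := by rw [hT]; exact sdiff_subset
    exact mem_range.mp (h2 h1)
  have hginj : Function.Injective g := by
    intro x y hxy
    have h1 : (g x : ℕ) = g y := by rw [hxy]
    rw [hg, hg] at h1
    exact (T.orderEmbOfFin hTc).injective h1
  have hgim : (univ.image fun j => (g j : ℕ)) = T := by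
    refine eq_of_subset_of_card_le ?_ ?_
    · intro x hx
      obtain ⟨j, _, rfl⟩ := mem_image.mp hx
      rw [hg]
      exact T.orderEmbOfFin_mem hTc j
    · rw [card_image_of_injective _ (fun x y hxy => hginj (Fin.ext hxy)), card_univ,
        Fintype.card_fin, hTc]
  obtain ⟨h, hh⟩ : ∃ h : Fin (s + 1) → Fin k, ∀ j : Fin (s + 1),
      ((j : ℕ) + 1) * k + (h j : ℕ) = c (Sum.inr (Sum.inl ⟨(j : ℕ) + 1, by omega⟩)) := by
    have h1 : ∀ j : Fin (s + 1), ∃ y : Fin k,
        ((j : ℕ) + 1) * k + (y : ℕ) = c (Sum.inr (Sum.inl ⟨(j : ℕ) + 1, by omega⟩)) := by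
      intro j
      have h2 := hcA ⟨(j : ℕ) + 1, by omega⟩
      rw [mem_Ico] at h2
      refine ⟨⟨c (Sum.inr (Sum.inl ⟨(j : ℕ) + 1, by omega⟩)) - ((j : ℕ) + 1) * k, ?_⟩, ?_⟩
      · have := h2.1
        have := h2.2
        simp only at *
        omega
      · have := h2.1
        simp only at *
        omega
    choose h hh using h1
    exact ⟨h, hh⟩
  obtain ⟨w, hw⟩ : ∃ w, w = e (g, h) := ⟨_, rfl⟩
  have hcw : c (Sum.inr (Sum.inr w)) ∈ bl s k g h := by
    have h1 : c (Sum.inr (Sum.inr w)) ∈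
      (if Function.Injective (f w).1 then bl s k (f w).1 (f w).2 else range k) :=
      hc1 (Sum.inr (Sum.inr w))
    rw [hw, hf] at h1
    rw [if_pos hginj] at h1
    rw [hw]
    exact h1
  rw [bl, hgim, hT, sdiff_sdiff_right_self, inf_eq_inter, inter_eq_right.mpr hDs, mem_union]
    at hcw
  rcases hcw with h1 | h1
  · rw [hD] at h1
    rcases mem_insert.mp h1 with h2 | h2
    · refine hc2 (Sum.inr (Sum.inr w)) (Sum.inr (Sum.inl ⟨0, by omega⟩)) ?_ h2
      rw [adj_rr]; simp
    · obtain ⟨i, _, hi⟩ := mem_image.mp h2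
      exact hc2 _ _ (adj_lr i _) hi
  · obtain ⟨j, _, hj⟩ := mem_image.mp h1
    rw [hh] at hj
    refine hc2 (Sum.inr (Sum.inl ⟨(j : ℕ) + 1, by omega⟩)) (Sum.inr (Sum.inr w)) ?_ hj
    rw [adj_rr]; simp

/-! ### The main theorem -/

/-- **Main theorem**: for every `s` and every fixed `a ≥ s + 2`,
`τ_s(a, b) = Θ(b ^ (1 / (2 s + 2)))` as `b → ∞`. -/
theorem result (s a : ℕ) (ha : s + 2 ≤ a) :
    (fun b : ℕ => (tau s a b : ℝ)) =Θ[atTop]
      fun b : ℕ => (b : ℝ) ^ ((1 : ℝ) / (2 * s + 2)) := by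
  have hα : (1 : ℝ) / (2 * s + 2) = ((2 * s + 2 : ℕ) : ℝ)⁻¹ := by push_cast; rw [one_div]
  have hpow : ∀ b : ℕ, ((b : ℝ) ^ ((1 : ℝ) / (2 * s + 2))) ^ (2 * s + 2) = b := by
    intro b
    rw [hα]
    exact Real.rpow_inv_natCast_pow (Nat.cast_nonneg b) (by omega)
  have hx0 : ∀ b : ℕ, 0 ≤ (b : ℝ) ^ ((1 : ℝ) / (2 * s + 2)) :=
    fun b => Real.rpow_nonneg (Nat.cast_nonneg b) _
  obtain ⟨C0, hC0⟩ : ∃ C0, C0 = 1 + (2 * s + 2 + a) + a * (2 * s + 2 + a) +
      (a + 1) * ((2 * s + 2 + a + a) * (s + 1 + (2 * s + 2 + a) + a)) := ⟨_, rfl⟩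
  -- the set defining `τ` contains `C0 * N`
  have hmem : ∀ b N : ℕ, 0 < b → 1 ≤ N → b < N ^ (2 * s + 2) →
      ((choiceNumber (KK (C0 * N) a b) : ℕ) : ℕ∞) ≤ (KK (C0 * N) a b).chromaticNumber + s := by
    intro b N hb hN hbN
    rw [cond_iff s (C0 * N) a b (by omega) hb]
    exact upper_choosable s a N (C0 * N) b hN (by rw [hC0]) hbN
  have hN : ∀ b : ℕ, b < (⌊(b : ℝ) ^ ((1 : ℝ) / (2 * s + 2))⌋₊ + 1) ^ (2 * s + 2) := by
    intro b
    have h1 := Nat.lt_floor_add_one ((b : ℝ) ^ ((1 : ℝ) / (2 * s + 2)))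
    have h2 : ((b : ℝ) ^ ((1 : ℝ) / (2 * s + 2))) ^ (2 * s + 2) <
        ((⌊(b : ℝ) ^ ((1 : ℝ) / (2 * s + 2))⌋₊ : ℝ) + 1) ^ (2 * s + 2) :=
      pow_lt_pow_left₀ h1 (hx0 b) (by omega)
    rw [hpow] at h2
    exact_mod_cast h2
  constructor
  · refine IsBigO.of_bound (2 * C0) (eventually_atTop.mpr ⟨1, fun b hb => ?_⟩)
    rw [Real.norm_of_nonneg (Nat.cast_nonneg _), Real.norm_of_nonneg (hx0 b)]
    have h1 : tau s a b ≤ C0 * (⌊(b : ℝ) ^ ((1 : ℝ) / (2 * s + 2))⌋₊ + 1) :=
      Nat.sInf_le (hmem b _ hb (by omega) (hN b))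
    have h2 : (tau s a b : ℝ) ≤ C0 * ((⌊(b : ℝ) ^ ((1 : ℝ) / (2 * s + 2))⌋₊ : ℝ) + 1) := by
      exact_mod_cast h1
    have h3 := Nat.floor_le (hx0 b)
    have h4 : 1 ≤ (b : ℝ) ^ ((1 : ℝ) / (2 * s + 2)) := by
      apply Real.one_le_rpow
      · exact_mod_cast hb
      · positivity
    have h5 : (0 : ℝ) ≤ C0 := Nat.cast_nonneg _
    calc (tau s a b : ℝ) ≤ C0 * ((⌊(b : ℝ) ^ ((1 : ℝ) / (2 * s + 2))⌋₊ : ℝ) + 1) := h2
      _ ≤ C0 * (2 * (b : ℝ) ^ ((1 : ℝ) / (2 * s + 2))) :=
          mul_le_mul_of_nonneg_left (by linarith) h5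
      _ = 2 * C0 * (b : ℝ) ^ ((1 : ℝ) / (2 * s + 2)) := by ring
  · refine IsBigO.of_bound 2 (eventually_atTop.mpr
      ⟨(2 * (s + 2)) ^ (2 * s + 2), fun b hb => ?_⟩)
    rw [Real.norm_of_nonneg (Nat.cast_nonneg _), Real.norm_of_nonneg (hx0 b)]
    have hb0 : 0 < b := lt_of_lt_of_le (Nat.pow_pos (by omega)) hb
    have hτ : ((choiceNumber (KK (tau s a b) a b) : ℕ) : ℕ∞) ≤
        (KK (tau s a b) a b).chromaticNumber + s :=
      Nat.sInf_mem (s := {t | ((choiceNumber (KK t a b) : ℕ) : ℕ∞) ≤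
        (KK t a b).chromaticNumber + s}) ⟨_, hmem b _ hb0 (by omega) (hN b)⟩
    rw [cond_iff s _ a b (by omega) hb0] at hτ
    have h1 : b < (tau s a b + s + 2) ^ (2 * s + 2) := by
      by_contra hcon
      exact lower_notChoosable s a (tau s a b) b ha (not_lt.mp hcon) hτ
    have h2 : (b : ℝ) ^ ((1 : ℝ) / (2 * s + 2)) < (tau s a b : ℝ) + s + 2 := by
      by_contra hcon
      push Not at hcon
      have h3 := pow_le_pow_left₀ (by positivity) hcon (2 * s + 2)
      rw [hpow] at h3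
      have h4 : (b : ℝ) < ((tau s a b : ℝ) + s + 2) ^ (2 * s + 2) := by exact_mod_cast h1
      linarith
    have h3 : (2 * ((s : ℝ) + 2)) ≤ (b : ℝ) ^ ((1 : ℝ) / (2 * s + 2)) := by
      by_contra hcon
      push Not at hcon
      have h4 := pow_lt_pow_left₀ hcon (hx0 b) (by omega : 2 * s + 2 ≠ 0)
      rw [hpow] at h4
      have h5 : ((2 * ((s : ℝ) + 2)) ^ (2 * s + 2)) ≤ (b : ℝ) := by exact_mod_cast hb
      linarith
    linarith

end Pool.Agent.Results.MP_abf9c7_co.Theta
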